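import Pool.Agent.Run7.h432.LV.Stm

set_option autoImplicit false

namespace Run7.h633.LV

open Run7.h432.LV

universe u

section
variable {U : Type u} [Ring U]

/-- the generators of the ideal `D` -/
def Ds (I : Ideal U) (m : ℕ) : Set U :=
  {d | ∃ (w : List (U ⊕ Fin m)) (x : Fin m → U), Once w ∧ (∀ i, x i ∈ I) ∧ d = alt w x}

theorem ev_append {ι : Type} (w w' : List (U ⊕ ι)) (x : ι → U) :
    ev (w ++ w') x = ev w x * ev w' x := by
  unfold ev
  rw [List.map_append, List.prod_append]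

theorem alt_mul {m : ℕ} (w : List (U ⊕ Fin m)) (x : Fin m → U) (a : U) :
    alt w x * a = alt (w ++ [Sum.inl a]) x := by
  unfold alt
  rw [Finset.sum_mul]
  apply Finset.sum_congr rfl
  intro σ _
  rw [ev_append, smul_mul_assoc]
  congr 1
  simp [ev]

theorem once_append {m : ℕ} (w : List (U ⊕ Fin m)) (hw : Once w) (a : U) :
    Once (w ++ [Sum.inl a]) := by
  refine ⟨?_, fun i => ?_⟩
  · have h0 : List.filterMap Sum.getRight? [(Sum.inl a : U ⊕ Fin m)] = [] := rfl
    rw [List.filterMap_append, h0, List.append_nil]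
    exact hw.1
  · exact List.mem_append_left _ (hw.2 i)

/-- the ideal `D` -/
def DD (I : Ideal U) (m : ℕ) : Ideal U := Ideal.span (Ds I m)

instance (I : Ideal U) (m : ℕ) : (DD I m).IsTwoSided := by
  refine ⟨fun {d} a hd => ?_⟩
  unfold DD at *
  refine Submodule.span_induction (p := fun d _ => d * a ∈ Ideal.span (Ds I m)) ?_ ?_ ?_ ?_ hd
  · rintro d ⟨w, x, hw, hx, rfl⟩
    rw [alt_mul]
    exact Ideal.subset_span ⟨_, x, once_append w hw a, hx, rfl⟩
  · rw [zero_mul]; exact Submodule.zero_mem _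
  · intro y z _ _ h1 h2
    rw [add_mul]; exact Submodule.add_mem _ h1 h2
  · intro r y _ h
    rw [smul_eq_mul, mul_assoc]
    exact Submodule.smul_mem _ r h

theorem kill (hNIL : S_NIL.{u}) (I : Ideal U) [I.IsTwoSided] (m : ℕ) (hinv : Inv U m)
    (hcap : Cap I (m + 1)) (hP : Perfect I) (s : U) (hs : s ∈ I) (z : U) (hz : z ∈ I) :
    ∀ d ∈ DD I m, ∀ d' ∈ DD I m, ∀ c : U, d * c * d' * (s ^ m * z) = 0 := by
  intro d hd d' hd'
  have h1 : ∀ (w : List (U ⊕ Fin m)) (x : Fin m → U), Once w → (∀ i, x i ∈ I) →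
      ∀ c : U, alt w x * c * d' * (s ^ m * z) = 0 := by
    intro w x hw hx
    refine Submodule.span_induction (p := fun d' _ => ∀ c : U,
      alt w x * c * d' * (s ^ m * z) = 0) ?_ ?_ ?_ ?_ hd'
    · rintro _ ⟨w', y, hw', hy, rfl⟩ c
      exact hNIL U I m hinv hcap hP w w' hw hw' x y hx hy c s hs z hz
    · intro c; simp
    · intro y y' _ _ h h' c
      rw [mul_add, add_mul, h, h', add_zero]
    · intro r y _ h c
      have := h (c * r)
      simpa only [smul_eq_mul, mul_assoc] using this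
  refine Submodule.span_induction (p := fun d _ => ∀ c : U,
      d * c * d' * (s ^ m * z) = 0) ?_ ?_ ?_ ?_ hd
  · rintro _ ⟨w, x, hw, hx, rfl⟩ c
    exact h1 w x hw hx c
  · intro c; simp
  · intro y y' _ _ h h' c
    rw [add_mul, add_mul, add_mul, h, h', add_zero]
  · intro r y _ h c
    rw [smul_eq_mul, mul_assoc r, mul_assoc r, mul_assoc r, h, mul_zero]

/-- the annihilator -/
def AA (I D : Ideal U) [I.IsTwoSided] [D.IsTwoSided] : Ideal U where
  carrier := {c | ∀ d ∈ D, ∀ d' ∈ D, ∀ z ∈ I, d * d' * c * z = 0}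
  add_mem' := by
    intro a b ha hb d hd d' hd' z hz
    rw [mul_add, add_mul, ha d hd d' hd' z hz, hb d hd d' hd' z hz, add_zero]
  zero_mem' := by
    intro d _ d' _ z _
    simp
  smul_mem' := by
    intro r c hc d hd d' hd' z hz
    have h1 : d' * r ∈ D := Ideal.IsTwoSided.mul_mem_of_left r hd'
    have := hc d hd (d' * r) h1 z hz
    rw [smul_eq_mul]
    rw [← mul_assoc, mul_assoc d d' r]
    exact this

instance (I D : Ideal U) [I.IsTwoSided] [D.IsTwoSided] : (AA I D).IsTwoSided := by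
  refine ⟨fun {c} a hc => ?_⟩
  intro d hd d' hd' z hz
  have h1 : a * z ∈ I := I.mul_mem_left a hz
  have := hc d hd d' hd' (a * z) h1
  rw [← mul_assoc, mul_assoc _ a z]
  exact this

theorem mem_map {D : Ideal U} [D.IsTwoSided] (I : Ideal U) (y : U ⧸ D) :
    y ∈ I.map (Ideal.Quotient.mk D) ↔ ∃ x ∈ I, Ideal.Quotient.mk D x = y := by
  rw [Ideal.mem_map_iff_of_surjective _ Ideal.Quotient.mk_surjective]

theorem map_two (I D : Ideal U) [I.IsTwoSided] [D.IsTwoSided] :
    (I.map (Ideal.Quotient.mk D)).IsTwoSided := by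
  refine ⟨fun {y} b hy => ?_⟩
  rw [mem_map] at hy ⊢
  obtain ⟨x, hx, rfl⟩ := hy
  obtain ⟨b', rfl⟩ := Ideal.Quotient.mk_surjective b
  exact ⟨x * b', Ideal.IsTwoSided.mul_mem_of_left b' hx, map_mul _ _ _⟩

theorem cap_quot (I : Ideal U) (m : ℕ) (D : Ideal U) [D.IsTwoSided]
    (hD : ∀ (w : List (U ⊕ Fin m)) (x : Fin m → U), Once w → (∀ i, x i ∈ I) → alt w x ∈ D) :
    Cap (I.map (Ideal.Quotient.mk D)) m := by
  intro w hw x hx
  have hs : Function.Surjective (Ideal.Quotient.mk D) := Ideal.Quotient.mk_surjective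
  have hx' : ∀ i, ∃ y ∈ I, Ideal.Quotient.mk D y = x i := fun i => (mem_map I _).1 (hx i)
  choose x0 hx0 hx1 using hx'
  set w0 : List (U ⊕ Fin m) := w.map (Sum.map (Function.surjInv hs) id) with hw0
  have hsi : ∀ a, Ideal.Quotient.mk D (Function.surjInv hs a) = a := Function.surjInv_eq hs
  have hO : Once w0 := by
    refine ⟨?_, fun i => ?_⟩
    · rw [hw0, List.filterMap_map]
      have : (Sum.getRight? ∘ Sum.map (Function.surjInv hs) id :
          (U ⧸ D) ⊕ Fin m → Option (Fin m)) = Sum.getRight? := by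
        funext a
        rcases a with a | a <;> rfl
      rw [this]
      exact hw.1
    · rw [hw0, List.mem_map]
      exact ⟨Sum.inr i, hw.2 i, rfl⟩
  have hev : ∀ y0 : Fin m → U, ∀ y : Fin m → U ⧸ D, (∀ i, Ideal.Quotient.mk D (y0 i) = y i) →
      Ideal.Quotient.mk D (ev w0 y0) = ev w y := by
    intro y0 y hy
    unfold ev
    rw [map_list_prod, hw0, List.map_map, List.map_map]
    congr 1
    apply List.map_congr_left
    intro a _
    rcases a with a | a
    · exact hsi a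
    · exact hy a
  have halt : Ideal.Quotient.mk D (alt w0 x0) = alt w x := by
    unfold alt
    rw [map_sum]
    apply Finset.sum_congr rfl
    intro σ _
    rw [map_zsmul, hev (x0 ∘ σ) (x ∘ σ) (fun i => hx1 (σ i))]
  rw [← halt, Ideal.Quotient.eq_zero_iff_mem]
  exact hD w0 x0 hO hx0

theorem perf_quot (I D : Ideal U) [I.IsTwoSided] [D.IsTwoSided] (hP : Perfect I) :
    Perfect (I.map (Ideal.Quotient.mk D)) := by
  intro y hy
  obtain ⟨x, hx, rfl⟩ := (mem_map I _).1 hy
  refine AddSubgroup.closure_induction (p := fun x _ => Ideal.Quotient.mk D x ∈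
    AddSubgroup.closure {c : U ⧸ D | ∃ a ∈ I.map (Ideal.Quotient.mk D),
      ∃ b ∈ I.map (Ideal.Quotient.mk D), c = a * b - b * a}) ?_ ?_ ?_ ?_ (hP x hx)
  · rintro _ ⟨a, ha, b, hb, rfl⟩
    apply AddSubgroup.subset_closure
    refine ⟨Ideal.Quotient.mk D a, (mem_map I _).2 ⟨a, ha, rfl⟩, Ideal.Quotient.mk D b,
      (mem_map I _).2 ⟨b, hb, rfl⟩, ?_⟩
    rw [map_sub, map_mul, map_mul]
  · rw [map_zero]; exact AddSubgroup.zero_mem _
  · intro a b _ _ h1 h2
    rw [map_add]; exact AddSubgroup.add_mem _ h1 h2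
  · intro a _ h
    rw [map_neg]; exact AddSubgroup.neg_mem _ h

theorem sq_of_perfect (I : Ideal U) (hP : Perfect I) :
    ∀ x ∈ I, x ∈ AddSubgroup.closure {c : U | ∃ a ∈ I, ∃ b ∈ I, c = a * b} := by
  intro x hx
  refine AddSubgroup.closure_induction (p := fun x _ => x ∈
    AddSubgroup.closure {c : U | ∃ a ∈ I, ∃ b ∈ I, c = a * b}) ?_ ?_ ?_ ?_ (hP x hx)
  · rintro _ ⟨a, ha, b, hb, rfl⟩
    exact AddSubgroup.sub_mem _ (AddSubgroup.subset_closure ⟨a, ha, b, hb, rfl⟩)
      (AddSubgroup.subset_closure ⟨b, hb, a, ha, rfl⟩)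
  · exact AddSubgroup.zero_mem _
  · intro a b _ _ h1 h2
    exact AddSubgroup.add_mem _ h1 h2
  · intro a _ h
    exact AddSubgroup.neg_mem _ h

theorem zero_of_four (I : Ideal U)
    (hsq : ∀ x ∈ I, x ∈ AddSubgroup.closure {c : U | ∃ a ∈ I, ∃ b ∈ I, c = a * b})
    (h4 : ∀ p ∈ I, ∀ q ∈ I, ∀ r ∈ I, ∀ s ∈ I, p * q * r * s = 0) : I = ⊥ := by
  have h3 : ∀ p ∈ I, ∀ q ∈ I, ∀ y ∈ I, p * q * y = 0 := by
    intro p hp q hq y hy
    refine AddSubgroup.closure_induction (p := fun y _ => p * q * y = 0) ?_ ?_ ?_ ?_ (hsq y hy)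
    · rintro _ ⟨r, hr, s, hs, rfl⟩
      rw [← mul_assoc]
      exact h4 p hp q hq r hr s hs
    · rw [mul_zero]
    · intro a b _ _ h1 h2
      rw [mul_add, h1, h2, add_zero]
    · intro a _ h
      rw [mul_neg, h, neg_zero]
  have h2 : ∀ x ∈ I, ∀ y ∈ I, x * y = 0 := by
    intro x hx y hy
    refine AddSubgroup.closure_induction (p := fun x _ => x * y = 0) ?_ ?_ ?_ ?_ (hsq x hx)
    · rintro _ ⟨p, hp, q, hq, rfl⟩
      exact h3 p hp q hq y hy
    · rw [zero_mul]
    · intro a b _ _ h1 h2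
      rw [add_mul, h1, h2, add_zero]
    · intro a _ h
      rw [neg_mul, h, neg_zero]
  rw [eq_bot_iff]
  intro x hx
  rw [Ideal.mem_bot]
  refine AddSubgroup.closure_induction (p := fun x _ => x = 0) ?_ ?_ ?_ ?_ (hsq x hx)
  · rintro _ ⟨p, hp, q, hq, rfl⟩
    exact h2 p hp q hq
  · rfl
  · intro a b _ _ h1 h2
    rw [h1, h2, add_zero]
  · intro a _ h
    rw [h, neg_zero]

end

theorem t_FIN (hNIL : S_NIL.{u}) (hNH : S_NH.{u}) : S_FIN.{u} := by
  intro n
  induction n with
  | zero =>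
    intro U _ I _ _ hcap _
    have h1 : (1 : U) = 0 := by
      have h := hcap [] ⟨by simp, fun i => i.elim0⟩ (fun _ => 0) (fun i => i.elim0)
      simpa [alt, ev] using h
    rw [eq_bot_iff]
    intro x _
    rw [Ideal.mem_bot, ← mul_one x, h1, mul_zero]
  | succ m ih =>
    intro U _ I _ hinv hcap hP
    have hinv' : Inv U m := hinv
    have hsq := sq_of_perfect I hP
    have hIA : I ≤ AA I (DD I m) := by
      apply hNH U I hsq m hinv'
      intro s hs d hd d' hd' z hz
      have := kill hNIL I m hinv' hcap hP s hs z hz d hd d' hd' 1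
      rw [mul_one, ← mul_assoc] at this
      exact this
    have := map_two I (DD I m)
    have hI' : I.map (Ideal.Quotient.mk (DD I m)) = ⊥ := by
      apply ih (U ⧸ DD I m) (I.map (Ideal.Quotient.mk (DD I m)))
      · intro k hk hkm
        have h1 := (hinv' k hk (by omega)).map (Ideal.Quotient.mk (DD I m))
        rwa [map_natCast] at h1
      · exact cap_quot I m (DD I m) (fun w x hw hx => Ideal.subset_span ⟨w, x, hw, hx, rfl⟩)
      · exact perf_quot I (DD I m) hP
    have hID : I ≤ DD I m := by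
      intro x hx
      have h1 : Ideal.Quotient.mk (DD I m) x ∈ I.map (Ideal.Quotient.mk (DD I m)) :=
        Ideal.mem_map_of_mem _ hx
      rw [hI', Ideal.mem_bot, Ideal.Quotient.eq_zero_iff_mem] at h1
      exact h1
    apply zero_of_four I hsq
    intro p hp q hq r hr s hs
    exact hIA hr p (hID hp) q (hID hq) s hs

end Run7.h633.LV
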